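import Pool.Agent.W684.FM.Val

/-!
# The stages of the iteration
-/

set_option autoImplicit false

namespace Pool.Agent.W684.FM

open Classical

variable {X W : Type} [LinearOrder W]

/-- a maximal set of coordinates at stage `α` above `S₀` -/
noncomputable def maxM (α : W) (S₀ : Set (Code X W)) : Set (Code X W) :=
  if h : ∃ M, Maximal (fun M => M ∈ Cand α S₀) M then h.choose else ∅

theorem maxM_spec {α : W} {S₀ : Set (Code X W)} (h₀ : ∀ c ∈ S₀, c.st < α ∧ Proper c)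
    (hc : CCCs S₀) : Maximal (fun M => M ∈ Cand α S₀) (maxM α S₀) := by
  have h := exists_max α S₀ h₀ hc
  rw [maxM, dif_pos h]
  exact h.choose_spec

theorem maxM_sub {α : W} {S₀ : Set (Code X W)} : ∀ c ∈ maxM α S₀, c.st = α ∧ Proper c := by
  intro c hc
  by_cases h : ∃ M, Maximal (fun M => M ∈ Cand α S₀) M
  · rw [maxM, dif_pos h] at hc
    exact h.choose_spec.1.1 c hc
  · rw [maxM, dif_neg h] at hc
    exact absurd hc (Set.notMem_empty c)

variable [WellFoundedLT W]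

/-- the coordinates at stage `α` -/
noncomputable def V : W → Set (Code X W) :=
  WellFounded.fix (wellFounded_lt (α := W)) fun α V' => maxM α (⋃ β : {β // β < α}, V' β.1 β.2)

/-- the coordinates before stage `α` -/
def Slt (α : W) : Set (Code X W) := ⋃ β : {β : W // β < α}, V β.1

/-- the coordinates up to stage `α` -/
def Sle (α : W) : Set (Code X W) := Slt α ∪ V α

/-- all coordinates -/
def Sall : Set (Code X W) := ⋃ β : W, V β

theorem V_eq (α : W) : (V α : Set (Code X W)) = maxM α (Slt α) := by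
  rw [V, WellFounded.fix_eq]
  rfl

theorem V_sub {α : W} {c : Code X W} (hc : c ∈ V α) : c.st = α ∧ Proper c := by
  rw [V_eq] at hc
  exact maxM_sub c hc

theorem mem_Slt {α : W} {c : Code X W} : c ∈ Slt α ↔ c.st < α ∧ c ∈ V c.st := by
  rw [Slt, Set.mem_iUnion]
  constructor
  · rintro ⟨⟨β, hβ⟩, h⟩
    have h1 := (V_sub h).1
    simp only at h1 h
    subst h1
    exact ⟨hβ, h⟩
  · rintro ⟨h1, h2⟩
    exact ⟨⟨c.st, h1⟩, h2⟩

theorem mem_Sle {α : W} {c : Code X W} : c ∈ Sle α ↔ c.st ≤ α ∧ c ∈ V c.st := by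
  rw [Sle, Set.mem_union, mem_Slt]
  constructor
  · rintro (⟨h1, h2⟩ | h)
    · exact ⟨h1.le, h2⟩
    · have h1 := (V_sub h).1
      subst h1
      exact ⟨le_rfl, h⟩
  · rintro ⟨h1, h2⟩
    rcases h1.lt_or_eq with h3 | h3
    · exact Or.inl ⟨h3, h2⟩
    · exact Or.inr (h3 ▸ h2)

theorem mem_Sall {c : Code X W} : c ∈ (Sall : Set (Code X W)) ↔ c ∈ V c.st := by
  rw [Sall, Set.mem_iUnion]
  constructor
  · rintro ⟨β, h⟩
    have h1 := (V_sub h).1
    subst h1
    exact h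
  · exact fun h => ⟨_, h⟩

theorem proper_Sall {c : Code X W} (hc : c ∈ (Sall : Set (Code X W))) : Proper c :=
  (V_sub (mem_Sall.1 hc)).2

theorem Slt_sub_Sall (α : W) : Slt α ⊆ (Sall : Set (Code X W)) := fun _ hc =>
  mem_Sall.2 (mem_Slt.1 hc).2

theorem Sle_sub_Sall (α : W) : Sle α ⊆ (Sall : Set (Code X W)) := fun _ hc =>
  mem_Sall.2 (mem_Sle.1 hc).2

theorem initial_Slt (α : W) : Initial (Slt α) (Sall : Set (Code X W)) :=
  ⟨Slt_sub_Sall α, fun _ hc _ hc' hlt => mem_Slt.2 ⟨hlt.trans (mem_Slt.1 hc).1, mem_Sall.1 hc'⟩⟩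

theorem initial_Sle (α : W) : Initial (Sle α) (Sall : Set (Code X W)) :=
  ⟨Sle_sub_Sall α, fun _ hc _ hc' hlt =>
    mem_Sle.2 ⟨hlt.le.trans (mem_Sle.1 hc).1, mem_Sall.1 hc'⟩⟩

theorem Initial.of_subset {T S S' : Set (Code X W)} (h : Initial T S') (h1 : T ⊆ S)
    (h2 : S ⊆ S') : Initial T S :=
  ⟨h1, fun c hc c' hc' hlt => h.2 c hc c' (h2 hc') hlt⟩

/-- chain condition of a part determined by a set of stages closed downwards -/
theorem CCCs_stages (S : Set (Code X W)) (hS : S ⊆ Sall) (L : Set W)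
    (hL : ∀ c ∈ S, c.st ∈ L) (hS' : ∀ α ∈ L, Sle α ⊆ S) (h : ∀ α ∈ L, CCCs (Sle α : Set (Code X W))) :
    CCCs S := by
  apply CCCs_of_parts fun c hc => proper_Sall (hS hc)
  intro r hr
  rcases r.eq_empty_or_nonempty with rfl | hne
  · exact ⟨∅, ⟨Set.empty_subset _, fun c hc => absurd hc (Set.notMem_empty c)⟩, by simp,
      CCCs_empty⟩
  · obtain ⟨c0, hc0, hmax⟩ := Finset.exists_max_image r Code.st hne
    have hα : c0.st ∈ L := hL c0 (hr c0 hc0)
    refine ⟨Sle c0.st, (initial_Sle _).of_subset (hS' _ hα) hS, fun c hc => ?_, h _ hα⟩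
    exact mem_Sle.2 ⟨hmax c hc, mem_Sall.1 (hS (hr c hc))⟩

theorem CCCs_Sle (α : W) : CCCs (Sle α : Set (Code X W)) := by
  induction α using WellFoundedLT.induction with
  | ind α ih =>
    have h1 : CCCs (Slt α : Set (Code X W)) := by
      apply CCCs_stages _ (Slt_sub_Sall α) (Set.Iio α)
      · intro c hc
        exact (mem_Slt.1 hc).1
      · intro β hβ c hc
        exact mem_Slt.2 ⟨(mem_Sle.1 hc).1.trans_lt hβ, (mem_Sle.1 hc).2⟩
      · intro β hβ
        exact ih β hβ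
    have h2 := maxM_spec (α := α) (S₀ := Slt α) (fun c hc =>
      ⟨(mem_Slt.1 hc).1, (V_sub (mem_Slt.1 hc).2).2⟩) h1
    rw [Sle, V_eq]
    exact h2.1.2

theorem CCCs_Slt (α : W) : CCCs (Slt α : Set (Code X W)) := by
  apply CCCs_stages _ (Slt_sub_Sall α) (Set.Iio α)
  · intro c hc
    exact (mem_Slt.1 hc).1
  · intro β hβ c hc
    exact mem_Slt.2 ⟨(mem_Sle.1 hc).1.trans_lt hβ, (mem_Sle.1 hc).2⟩
  · intro β _
    exact CCCs_Sle β

theorem CCCs_Sall : CCCs (Sall : Set (Code X W)) := by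
  apply CCCs_stages _ (Set.Subset.refl _) Set.univ
  · exact fun _ _ => trivial
  · exact fun β _ => Sle_sub_Sall β
  · exact fun β _ => CCCs_Sle β

/-- maximality -/
theorem mem_V_of {α : W} {c : Code X W} (h1 : c.st = α) (h2 : Proper c)
    (h3 : CCCs (Sle α ∪ {c})) : c ∈ V α := by
  have hm := maxM_spec (X := X) (α := α) (S₀ := Slt α) (fun c hc =>
      ⟨(mem_Slt.1 hc).1, (V_sub (mem_Slt.1 hc).2).2⟩) (CCCs_Slt (X := X) α)
  rw [← V_eq] at hm
  have h4 : V α ∪ {c} ∈ Cand α (Slt α : Set (Code X W)) := by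
    refine ⟨?_, ?_⟩
    · rintro d (hd | hd)
      · exact V_sub hd
      · rw [Set.mem_singleton_iff.1 hd]
        exact ⟨h1, h2⟩
    · rw [← Set.union_assoc]
      exact h3
  exact hm.2 h4 Set.subset_union_left (Or.inr rfl)

end Pool.Agent.W684.FM
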