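import Pool.Agent.W684.FM.Defs
import Pool.Agent.W684.FM.Stages

/-!
# Martin's axiom can be forced
-/

set_option autoImplicit false

namespace Pool.Agent.W684.FM

open Classical Cardinal Pool.Agent.Helper669.Forcing

/-! ### Generalities about preorders with the countable chain condition -/

section General

variable {P : Type} [Preorder P]

/-- the countable chain condition for a preorder of conditions -/
def PCCC (P : Type) [Preorder P] : Prop :=
  ∀ A : Set P, (∀ p ∈ A, ∀ q ∈ A, p ≠ q → ¬ ∃ r, r ≤ p ∧ r ≤ q) → A.Countable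

theorem exists_predense (hP : PCCC P) (φ : Set P) (hφ : Down φ) :
    ∃ A : Set P, A.Countable ∧ A ⊆ φ ∧ ∀ p ∈ φ, ∃ a ∈ A, ∃ r, r ≤ p ∧ r ≤ a := by
  have : ∃ A, Maximal (fun A : Set P => A ⊆ φ ∧
      ∀ p ∈ A, ∀ q ∈ A, p ≠ q → ¬ ∃ r, r ≤ p ∧ r ≤ q) A := by
    apply zorn_subset {A : Set P | A ⊆ φ ∧ ∀ p ∈ A, ∀ q ∈ A, p ≠ q → ¬ ∃ r, r ≤ p ∧ r ≤ q}
    intro c hc hchain
    refine ⟨⋃₀ c, ⟨Set.sUnion_subset fun A hA => (hc hA).1, ?_⟩,
      fun s hs => Set.subset_sUnion_of_mem hs⟩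
    rintro p ⟨A, hA, hpA⟩ q ⟨B, hB, hqB⟩ hne
    rcases hchain.total hA hB with h | h
    · exact (hc hB).2 p (h hpA) q hqB hne
    · exact (hc hA).2 p hpA q (h hqB) hne
  obtain ⟨A, ⟨h1, h2⟩, hmax⟩ := this
  refine ⟨A, hP A h2, h1, fun p hp => ?_⟩
  by_contra hcon
  push Not at hcon
  have hpA : p ∉ A := fun h => hcon p h p le_rfl le_rfl
  apply hpA
  refine hmax (y := insert p A) ⟨Set.insert_subset hp h1, ?_⟩ (Set.subset_insert p A)
    (Set.mem_insert p A)
  rintro x (rfl | hx) y (rfl | hy) hne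
  · exact absurd rfl hne
  · rintro ⟨r, hr1, hr2⟩
    exact hcon y hy r hr1 hr2
  · rintro ⟨r, hr1, hr2⟩
    exact hcon x hx r hr2 hr1
  · exact h2 x hx y hy hne

theorem meets_of_dense {N : Set P} {p : P} (h : ∀ q ≤ p, ∃ r ≤ q, r ∈ meets N) :
    p ∈ meets N := by
  intro q hq
  obtain ⟨r, hr, hr'⟩ := h q hq
  obtain ⟨s, hs, t, ht, hst⟩ := hr' r le_rfl
  exact ⟨s, hs.trans hr, t, ht, hst⟩

theorem exists_countable_name (hP : PCCC P) (N : Set P) :
    ∃ A : Set P, A.Countable ∧ meets A = meets N := by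
  obtain ⟨A, h1, h2, h3⟩ := exists_predense hP (meets N) (down_meets N)
  refine ⟨A, h1, ?_⟩
  ext p
  constructor
  · intro hp
    apply meets_of_dense
    intro q hq
    obtain ⟨r, hr, a, ha, hra⟩ := hp q hq
    exact ⟨r, hr, down_meets N a (h2 ha) r hra⟩
  · intro hp q hq
    obtain ⟨a, ha, r, hr, hr'⟩ := h3 q (down_meets N p hp q hq)
    exact ⟨r, hr, a, ha, hr'⟩

theorem down_UnbN (Z : Om1 → Set P) : Down (UnbN Z) := down_fall fun _ => down_fex _

variable {X : Type}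

theorem down_IsPreN (R : X → X → Set P) : Down (IsPreN R) :=
  down_fand (down_fall fun _ => down_meets _)
    (down_fall fun _ => down_fall fun _ => down_fall fun _ => down_fimp _ _)

theorem down_CCCN (R : X → X → Set P) : Down (CCCN R) :=
  down_fall fun _ => down_fall fun _ => down_fimp _ _

theorem down_IsDenseN (R : X → X → Set P) (D : X → Set P) : Down (IsDenseN R D) :=
  down_fall fun _ => down_fex _

theorem down_IsFilterN (R : X → X → Set P) (F : X → Set P) : Down (IsFilterN R F) :=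
  down_fand (down_fex _) (down_fand (down_fall fun _ => down_fall fun _ => down_fimp _ _)
    (down_fall fun _ => down_fall fun _ => down_fimp _ _))

theorem IsPreN.refl {R : X → X → Set P} {p : P} (h : p ∈ IsPreN R) (x : X) :
    p ∈ meets (R x x) := h.1 x

theorem IsPreN.trans {R : X → X → Set P} {p : P} (h : p ∈ IsPreN R) {x y z : X}
    (h1 : p ∈ meets (R x y)) (h2 : p ∈ meets (R y z)) : p ∈ meets (R x z) := by
  apply meets_of_dense
  intro q hq
  exact mem_fimp.1 (h.2 x y z) q hq ⟨down_meets _ _ h1 _ hq, down_meets _ _ h2 _ hq⟩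

/-- a countable subset of `ω₁` is bounded -/
theorem exists_bound (g : ℕ → Om1) : ∃ a, ∀ n, g n ≤ a := by
  by_contra hcon
  push Not at hcon
  have h1 : (Set.univ : Set Om1) ⊆ ⋃ n, Set.Iio (g n) := by
    intro a _
    obtain ⟨n, hn⟩ := hcon a
    exact Set.mem_iUnion.2 ⟨n, hn⟩
  have h2 : (⋃ n, Set.Iio (g n)).Countable := by
    apply Set.countable_iUnion
    intro n
    have h3 := Cardinal.mk_Iio_ord_toType (g n)
    rw [← Cardinal.le_aleph0_iff_set_countable]
    have : #(Set.Iio (g n)) < Order.succ ℵ₀ := by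
      rw [← Cardinal.aleph_zero, ← Cardinal.aleph_succ]
      simpa using h3
    exact Order.lt_succ_iff.1 this
  have h4 : (Set.univ : Set Om1).Countable := h2.mono h1
  rw [← Cardinal.le_aleph0_iff_set_countable, Cardinal.mk_univ, Cardinal.mk_ord_toType] at h4
  exact absurd h4 (not_le.2 Cardinal.aleph0_lt_aleph_one)

theorem exists_gt_om1 (a : Om1) : ∃ b, a < b := by
  by_contra hcon
  push Not at hcon
  have h1 : (Set.univ : Set Om1) ⊆ insert a (Set.Iio a) := by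
    intro b _
    rcases (hcon b).lt_or_eq with h | h
    · exact Or.inr h
    · exact Or.inl h
  have h2 : (insert a (Set.Iio a)).Countable := by
    apply Set.Countable.insert
    have h3 := Cardinal.mk_Iio_ord_toType a
    rw [← Cardinal.le_aleph0_iff_set_countable]
    have : #(Set.Iio a) < Order.succ ℵ₀ := by
      rw [← Cardinal.aleph_zero, ← Cardinal.aleph_succ]
      simpa using h3
    exact Order.lt_succ_iff.1 this
  have h4 : (Set.univ : Set Om1).Countable := h2.mono h1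
  rw [← Cardinal.le_aleph0_iff_set_countable, Cardinal.mk_univ, Cardinal.mk_ord_toType] at h4
  exact absurd h4 (not_le.2 Cardinal.aleph0_lt_aleph_one)

/-- the chain condition of a two-step iteration -/
theorem two_step (hP : PCCC P) {R : X → X → Set P} {q0 : P} (hq0 : q0 ∈ CCCN R)
    {ι : Type} (B : Set ι) (hB : ¬ B.Countable) (p' : ι → P) (z : ι → X)
    (hle : ∀ i ∈ B, p' i ≤ q0) :
    ∃ i ∈ B, ∃ j ∈ B, i ≠ j ∧ ∃ u, u ≤ p' i ∧ u ≤ p' j ∧
      ∃ w, u ∈ meets (R w (z i)) ∧ u ∈ meets (R w (z j)) := by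
  obtain ⟨e⟩ : Nonempty (Om1 ↪ B) := by
    rw [← Cardinal.le_def, Cardinal.mk_ord_toType]
    rw [← Cardinal.succ_aleph0, Order.succ_le_iff]
    rw [← not_le, Cardinal.le_aleph0_iff_set_countable]
    exact hB
  let Z : Om1 → Set P := fun ξ => {p' (e ξ)}
  let f : Om1 → X → Set P := fun ξ x => {_r | x = z (e ξ)}
  have hunb : ∃ q ≤ q0, q ∈ UnbN Z := by
    by_contra hcon
    push Not at hcon
    let E : Set P := {r | r ≤ q0 ∧ ∃ a, ∀ s ≤ r, ∀ b, a < b → s ∉ meets (Z b)}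
    have hE : Down E := by
      rintro p ⟨h1, a, h2⟩ q hq
      exact ⟨hq.trans h1, a, fun s hs b hb => h2 s (hs.trans hq) b hb⟩
    have hdense : ∀ q ≤ q0, ∃ r ≤ q, r ∈ E := by
      intro q hq
      have h1 := hcon q hq
      have h2 : ∃ a, q ∉ fex fun b => fand (fground (a < b)) (meets (Z b)) := by
        by_contra h3
        push Not at h3
        exact h1 h3
      obtain ⟨a, ha⟩ := h2
      rw [mem_fex] at ha
      push Not at ha
      obtain ⟨r, hr, h3⟩ := ha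
      exact ⟨r, hr, hr.trans hq, a, fun s hs b hab hsb => h3 s hs b ⟨hab, hsb⟩⟩
    obtain ⟨A, hA, hAE, hpre⟩ := exists_predense hP E hE
    have hA0 : A.Nonempty := by
      obtain ⟨r, _, hr⟩ := hdense q0 le_rfl
      obtain ⟨a, ha, _⟩ := hpre r hr
      exact ⟨a, ha⟩
    obtain ⟨g, hg⟩ := hA.exists_eq_range hA0
    have hgE : ∀ n, g n ∈ E := fun n => hAE (by rw [hg]; exact ⟨n, rfl⟩)
    choose hg1 a ha using hgE
    obtain ⟨a', ha'⟩ := exists_bound a
    obtain ⟨b, hb⟩ := exists_gt_om1 a'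
    obtain ⟨r, hr, hrE⟩ := hdense (p' (e b)) (hle _ (e b).2)
    obtain ⟨x, hx, s, hs1, hs2⟩ := hpre r hrE
    rw [hg] at hx
    obtain ⟨n, rfl⟩ := hx
    exact ha n s hs2 b ((ha' n).trans_lt hb) (meets_of_le rfl (hs1.trans hr))
  obtain ⟨q, hq, hqZ⟩ := hunb
  have hfun : q ∈ IsFun f := by
    refine ⟨fun ξ => ?_, fun ξ x y => ?_⟩
    · exact mem_fex_of_mem (z (e ξ)) (down_meets _) (meets_of_mem rfl)
    · rw [mem_fimp]
      rintro r hr ⟨h1, h2⟩
      obtain ⟨s, hs, t, ht, _⟩ := h1 r le_rfl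
      obtain ⟨s', hs', t', ht', _⟩ := h2 r le_rfl
      refine ⟨r, le_rfl, ?_⟩
      have e1 : x = z (e ξ) := ht
      have e2 : y = z (e ξ) := ht'
      exact e1.trans e2.symm
  have h1 := hq0 Z f
  rw [mem_fimp] at h1
  obtain ⟨r1, hr1, h2⟩ := h1 q hq ⟨hqZ, hfun⟩
  obtain ⟨r2, hr2, a, h3⟩ := mem_fex.1 h2 r1 le_rfl
  obtain ⟨r3, hr3, b, hab, h4, h5, h6⟩ := mem_fex.1 h3 r2 le_rfl
  obtain ⟨r4, hr4, x, h7⟩ := mem_fex.1 h6 r3 le_rfl
  obtain ⟨r5, hr5, y, h8, h9, h10⟩ := mem_fex.1 h7 r4 le_rfl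
  obtain ⟨r6, hr6, w, h11, h12⟩ := mem_fex.1 h10 r5 le_rfl
  have hx : x = z (e a) := by
    obtain ⟨_, _, t, ht, _⟩ := h8 r5 le_rfl
    exact ht
  have hy : y = z (e b) := by
    obtain ⟨_, _, t, ht, _⟩ := h9 r5 le_rfl
    exact ht
  have hr63 : r6 ≤ r3 := hr6.trans (hr5.trans hr4)
  obtain ⟨r7, hr7, s, hs, hr7s⟩ := h4 r6 hr63
  obtain ⟨r8, hr8, s', hs', hr8s⟩ := h5 r7 (hr7.trans hr63)
  have hs1 : s = p' (e a) := hs
  have hs2 : s' = p' (e b) := hs'
  subst hx hy hs1 hs2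
  refine ⟨e a, (e a).2, e b, (e b).2, ?_, r8, hr8.trans hr7s, hr8s, w, ?_, ?_⟩
  · intro h
    exact hab (e.injective (Subtype.ext h))
  · exact down_meets _ _ h11 _ (hr8.trans hr7)
  · exact down_meets _ _ h12 _ (hr8.trans hr7)

end General

end Pool.Agent.W684.FM
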