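import Pool.Agent.W684.FM.Forced
import Pool.Agent.W684.MADef

/-!
# Martin's axiom can be forced: conclusion

* `exists_forcing` : for every infinite set `X` there is a preordered set `P` of conditions which
  preserves all cardinals and forces `MartinFor X` (Martin's axiom for `#X` dense sets).
* `martinFor_iff` : `MartinFor X` is equivalent to the usual form of Martin's axiom for `#X`
  dense sets.
-/

set_option autoImplicit false

namespace Pool.Agent.W684.FM

open Classical Cardinal Pool.Agent.Helper669.Forcing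

/-! ### Cardinals are preserved -/

section

universe v

variable {P : Type} [Preorder P]

theorem PCCC.family (hP : PCCC P) {Y : Type v} (f : Y → P) (hY : ¬ Countable Y) :
    ∃ y y', y ≠ y' ∧ ∃ s, s ≤ f y ∧ s ≤ f y' := by
  by_contra hcon
  push Not at hcon
  have hinj : Function.Injective f := by
    intro y y' h
    by_contra hne
    exact hcon y y' hne (f y) le_rfl (by rw [h])
  have h1 : (Set.range f).Countable := by
    apply hP
    rintro _ ⟨y, rfl⟩ _ ⟨y', rfl⟩ hne ⟨r, h1, h2⟩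
    exact hcon y y' (fun h => hne (by rw [h])) r h1 h2
  exact hY (Set.countable_univ_iff.1 (Set.countable_of_injective_of_countable_image
    (f := f) (s := Set.univ) hinj.injOn (by rwa [Set.image_univ])))

theorem PCCC.exists_compat_same (hP : PCCC P) {X Z : Type v} (h : #Z * ℵ₀ < #X) (f : X → P)
    (z : X → Z) : ∃ x x', x ≠ x' ∧ z x = z x' ∧ ∃ s, s ≤ f x ∧ s ≤ f x' := by
  have h1 : ∃ c, ¬ Countable {x // z x = c} := by
    by_contra hcon
    push Not at hcon
    have h2 : #X = Cardinal.sum fun c => #{x // z x = c} := by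
      rw [← mk_sigma]
      exact (Equiv.sigmaFiberEquiv z).symm.cardinal_eq
    have h3 : #X ≤ #Z * ℵ₀ := by
      rw [h2]
      refine (Cardinal.sum_le_sum _ (fun _ => ℵ₀) fun c => ?_).trans ?_
      · have := hcon c
        exact mk_le_aleph0
      · rw [Cardinal.sum_const']
    exact absurd h3 (not_le.2 h)
  obtain ⟨c, hc⟩ := h1
  obtain ⟨y, y', hne, hcomp⟩ := hP.family (fun x : {x // z x = c} => f x.1) hc
  exact ⟨y.1, y'.1, fun h => hne (Subtype.ext h), y.2.trans y'.2.symm, hcomp⟩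

theorem PCCC.cardinalsPreserved (hP : PCCC P) (p : P) : p ∈ CardinalsPreserved.{0, v} P := by
  intro μ ν hμν hν q _ hq
  obtain ⟨r, _, R, hR1, hR2⟩ := mem_fex.1 hq q le_rfl
  have h1 : ∀ y : ν.out, ∃ s ≤ r, ∃ x : μ.out, s ∈ meets (R x y) := fun y =>
    mem_fex.1 (hR2 y) r le_rfl
  choose f hf x hx using h1
  obtain ⟨y, y', hne, hz, s, hs1, hs2⟩ := hP.exists_compat_same (X := ν.out) (Z := μ.out) (by
    rw [mk_out, mk_out]
    exact mul_lt_of_lt hν.le hμν hν) f x
  apply hne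
  refine IsFun.unique (down_IsFun R r hR1 s (hs1.trans (hf y))) (down_meets _ _ (hx y) s hs1) ?_
  rw [hz]
  exact down_meets _ _ (hx y') s hs2

theorem PCCC.omegaOnePreserved (hP : PCCC P) (p : P) : p ∈ OmegaOnePreserved P := by
  intro q _ hq
  obtain ⟨r, _, R, hR1, hR2⟩ := mem_fex.1 hq q le_rfl
  have h1 : ∀ y : Om1, ∃ s ≤ r, ∃ x : ℕ, s ∈ meets (R x y) := fun y =>
    mem_fex.1 (hR2 y) r le_rfl
  choose f hf x hx using h1
  obtain ⟨y, y', hne, hz, s, hs1, hs2⟩ := hP.exists_compat_same (X := Om1) (Z := ℕ) (by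
    rw [mk_nat, mk_ord_toType, aleph0_mul_aleph0]
    exact aleph0_lt_aleph_one) f x
  apply hne
  refine IsFun.unique (down_IsFun R r hR1 s (hs1.trans (hf y))) (down_meets _ _ (hx y) s hs1) ?_
  rw [hz]
  exact down_meets _ _ (hx y') s hs2

end

/-- For every infinite set `X` there is a preordered set of conditions which forces that all
cardinals are preserved and that Martin's axiom for `#X` dense sets holds. -/
theorem exists_forcing (X : Type) [Infinite X] :
    ∃ (P : Type) (_ : Preorder P), Nonempty P ∧ ∀ p : P,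
      p ∈ CardinalsPreserved.{0, 0} P ∧ p ∈ OmegaOnePreserved P ∧ p ∈ MartinHolds P X := by
  refine ⟨PP X (Order.succ #X).ord.ToType, inferInstance, ⟨⟨∅, valid_empty _⟩⟩, fun p => ?_⟩
  exact ⟨pccc.cardinalsPreserved p, pccc.omegaOnePreserved p, martinHolds (bdd_succ X) p⟩

/-! ### The usual form of Martin's axiom -/

/-- Martin's axiom for at most `κ` dense sets: for every nonempty preordered set `P` with the
countable chain condition and every family of at most `κ` dense subsets of `P` there is a filter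
in `P` which meets each of them. -/
def MartinAxiomCard (κ : Cardinal.{0}) : Prop :=
  ∀ (P : Type) [Preorder P] [Nonempty P], IsCCC P →
    ∀ 𝒟 : Set (Set P), #𝒟 ≤ κ → (∀ D ∈ 𝒟, ∀ p : P, ∃ q ∈ D, q ≤ p) →
      ∃ G : Set P, G.Nonempty ∧ (∀ p ∈ G, ∀ q : P, p ≤ q → q ∈ G) ∧
        (∀ p ∈ G, ∀ q ∈ G, ∃ r ∈ G, r ≤ p ∧ r ≤ q) ∧ ∀ D ∈ 𝒟, (G ∩ D).Nonempty

theorem martinAxiomAleph1_iff : MartinAxiomAleph1 ↔ MartinAxiomCard ℵ₁ := Iff.rfl

instance : Infinite Om1 := by
  rw [Cardinal.infinite_iff, Cardinal.mk_ord_toType]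
  exact Cardinal.aleph0_le_aleph _

/-- closing a set under two operations -/
theorem exists_closed {X : Type} [Infinite X] {P I : Type} (hI : #I ≤ #X) (p0 : P)
    (w : P → P → P) (d : I → P → P) :
    ∃ Q : Set P, p0 ∈ Q ∧ #Q ≤ #X ∧ (∀ p ∈ Q, ∀ q ∈ Q, w p q ∈ Q) ∧ ∀ i, ∀ p ∈ Q, d i p ∈ Q := by
  let stp : Set P → Set P := fun Q => Q ∪
    (⋃ p : Q, ⋃ q : Q, {w p q}) ∪ ⋃ i : I, ⋃ p : Q, {d i p}
  let Qn : ℕ → Set P := fun n => stp^[n] {p0}
  have hsucc : ∀ n, Qn (n + 1) = Qn n ∪ (⋃ p : Qn n, ⋃ q : Qn n, {w p q}) ∪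
      ⋃ i : I, ⋃ p : Qn n, {d i p} := fun n => Function.iterate_succ_apply' stp n {p0}
  have hX := Cardinal.aleph0_le_mk X
  have hcard : ∀ n, #(Qn n) ≤ #X := by
    intro n
    induction n with
    | zero =>
      show #({p0} : Set P) ≤ #X
      rw [mk_singleton]
      exact one_le_aleph0.trans hX
    | succ n ih =>
      rw [hsucc]
      have h1 : ∀ f : Qn n → P, #(⋃ p : Qn n, ({f p} : Set P)) ≤ #X := by
        intro f
        refine (mk_iUnion_le _).trans ?_
        calc #(Qn n) * _ ≤ #X * 1 := by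
              apply mul_le_mul' ih
              apply ciSup_le'
              intro i
              rw [mk_singleton]
          _ = #X := mul_one _
      refine (mk_union_le _ _).trans ?_
      refine (add_le_add ((mk_union_le _ _).trans (add_le_add ih ?_)) ?_).trans
        (b := #X + #X + #X) ?_
      · refine (mk_iUnion_le _).trans ?_
        calc #(Qn n) * _ ≤ #X * #X := by
              apply mul_le_mul' ih
              apply ciSup_le'
              intro i
              exact h1 _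
          _ = #X := mul_eq_self hX
      · refine (mk_iUnion_le _).trans ?_
        calc #I * _ ≤ #X * #X := by
              apply mul_le_mul' hI
              apply ciSup_le'
              intro i
              exact h1 _
          _ = #X := mul_eq_self hX
      · rw [add_eq_self hX, add_eq_self hX]
  have hmono : Monotone Qn := monotone_nat_of_le_succ fun n => by
    rw [hsucc]
    exact Set.subset_union_left.trans Set.subset_union_left
  refine ⟨⋃ n, Qn n, Set.mem_iUnion.2 ⟨0, rfl⟩, ?_, ?_, ?_⟩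
  · refine (mk_iUnion_le _).trans ?_
    calc #ℕ * _ ≤ #X * #X := by
          apply mul_le_mul'
          · rw [mk_nat]
            exact hX
          · apply ciSup_le'
            exact hcard
      _ = #X := mul_eq_self hX
  · intro p hp q hq
    obtain ⟨m, hm⟩ := Set.mem_iUnion.1 hp
    obtain ⟨n, hn⟩ := Set.mem_iUnion.1 hq
    refine Set.mem_iUnion.2 ⟨max m n + 1, ?_⟩
    rw [hsucc]
    refine Or.inl (Or.inr ?_)
    exact Set.mem_iUnion.2 ⟨⟨p, hmono (le_max_left _ _) hm⟩, Set.mem_iUnion.2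
      ⟨⟨q, hmono (le_max_right _ _) hn⟩, rfl⟩⟩
  · intro i p hp
    obtain ⟨m, hm⟩ := Set.mem_iUnion.1 hp
    refine Set.mem_iUnion.2 ⟨m + 1, ?_⟩
    rw [hsucc]
    refine Or.inr ?_
    exact Set.mem_iUnion.2 ⟨i, Set.mem_iUnion.2 ⟨⟨p, hm⟩, rfl⟩⟩

theorem martinAxiomCard_of_martinFor {X : Type} [Infinite X] (h : MartinFor X) :
    MartinAxiomCard #X := by
  intro P _ _ hP 𝒟 h𝒟 hdense
  let w : P → P → P := fun p q => if h : ∃ r, r ≤ p ∧ r ≤ q then h.choose else p
  have hw : ∀ p q, (∃ r, r ≤ p ∧ r ≤ q) → w p q ≤ p ∧ w p q ≤ q := by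
    intro p q h
    simp only [w, dif_pos h]
    exact h.choose_spec
  have hd' : ∀ i : 𝒟, ∀ p : P, ∃ q ∈ i.1, q ≤ p := fun i p => hdense i.1 i.2 p
  choose d hd1 hd2 using hd'
  obtain ⟨Q, hp0, hQ, hQw, hQd⟩ := exists_closed h𝒟 (Classical.arbitrary P) w d
  -- a parametrization of `Q` by `X`
  obtain ⟨f, hf⟩ : ∃ f : X → Q, Function.Surjective f := by
    obtain ⟨e⟩ := hQ
    have : Nonempty Q := ⟨⟨_, hp0⟩⟩
    exact ⟨Function.invFun e, Function.invFun_surjective e.injective⟩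
  obtain ⟨g, hg⟩ : ∃ g : X → Set Q, (∀ D ∈ 𝒟, ∃ i, g i = {q | q.1 ∈ D}) ∧
      ∀ i, ∀ q : Q, ∃ r ∈ g i, r ≤ q := by
    obtain ⟨e⟩ := h𝒟
    refine ⟨fun x => if h : ∃ i, e i = x then {q | q.1 ∈ h.choose.1} else Set.univ, ?_, ?_⟩
    · intro D hD
      refine ⟨e ⟨D, hD⟩, ?_⟩
      have h1 : ∃ i, e i = e ⟨D, hD⟩ := ⟨_, rfl⟩
      have h2 := e.injective h1.choose_spec
      simp only [dif_pos h1, h2]
    · intro x q
      by_cases h1 : ∃ i, e i = x
      · simp only [dif_pos h1]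
        exact ⟨⟨d h1.choose q.1, hQd _ _ q.2⟩, hd1 _ _, hd2 _ _⟩
      · simp only [dif_neg h1]
        exact ⟨q, trivial, le_rfl⟩
  have hccc : CCC fun x y => f x ≤ f y := by
    intro Z k hZ
    by_cases hinj : ∃ a b, a ≠ b ∧ Z a ∧ Z b ∧ f (k a) = f (k b)
    · obtain ⟨a, b, hab, ha, hb, heq⟩ := hinj
      exact ⟨a, b, hab, ha, hb, k a, le_rfl, heq.le⟩
    push Not at hinj
    by_contra hcon
    push Not at hcon
    have hZc : ¬ ({a | Z a} : Set Om1).Countable := by
      intro hc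
      have hne : ({a | Z a} : Set Om1).Nonempty := by
        obtain ⟨b, _, hb⟩ := hZ (Classical.arbitrary Om1)
        exact ⟨b, hb⟩
      obtain ⟨e, he⟩ := hc.exists_eq_range hne
      obtain ⟨a, ha⟩ := exists_bound e
      obtain ⟨b, hab, hb⟩ := hZ a
      have hb' : b ∈ ({a | Z a} : Set Om1) := hb
      rw [he] at hb'
      obtain ⟨n, rfl⟩ := hb'
      exact absurd (ha n) (not_le.2 hab)
    apply hZc
    refine Set.countable_of_injective_of_countable_image (f := fun a => (f (k a)).1) ?_ (hP _ ?_)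
    · intro a ha b hb hab
      by_contra hne
      exact hinj a b hne ha hb (Subtype.ext hab)
    · rintro _ ⟨a, ha, rfl⟩ _ ⟨b, hb, rfl⟩ hne ⟨r, h1, h2⟩
      have h3 := hw _ _ ⟨r, h1, h2⟩
      obtain ⟨z, hz⟩ := hf ⟨w (f (k a)).1 (f (k b)).1, hQw _ (f (k a)).2 _ (f (k b)).2⟩
      refine hcon a b (fun h => hne (by rw [h])) ha hb ⟨z, ?_, ?_⟩
      · simp only [hz]
        exact h3.1
      · simp only [hz]
        exact h3.2
  have hdns : ∀ i, IsDenseIn (fun x y => f x ≤ f y) (fun x => f x ∈ g i) := by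
    intro i x
    obtain ⟨r, hr, hrx⟩ := hg.2 i (f x)
    obtain ⟨y, hy⟩ := hf r
    exact ⟨y, by simp only [hy]; exact hr, by simp only [hy]; exact hrx⟩
  obtain ⟨F, ⟨⟨x0, hx0⟩, hup, hdir⟩, hmeet⟩ := h (fun x y => f x ≤ f y) (fun i x => f x ∈ g i)
    ⟨fun x => le_rfl, fun x y z h1 h2 => h1.trans h2⟩ hccc hdns
  · refine ⟨{p | ∃ x, F x ∧ (f x).1 ≤ p}, ⟨_, x0, hx0, le_rfl⟩, ?_, ?_, ?_⟩
    · rintro p ⟨x, hx, hxp⟩ q hpq
      exact ⟨x, hx, hxp.trans hpq⟩
    · rintro p ⟨x, hx, hxp⟩ q ⟨y, hy, hyq⟩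
      obtain ⟨z, hz, h1, h2⟩ := hdir x y hx hy
      exact ⟨f z, ⟨z, hz, le_rfl⟩, le_trans (show (f z).1 ≤ (f x).1 from h1) hxp,
        le_trans (show (f z).1 ≤ (f y).1 from h2) hyq⟩
    · intro D hD
      obtain ⟨i, hi⟩ := hg.1 D hD
      obtain ⟨x, hx, hxD⟩ := hmeet i
      rw [hi] at hxD
      exact ⟨f x, ⟨x, hx, le_rfl⟩, hxD⟩

theorem martinFor_of_martinAxiomCard {X : Type} [Infinite X] (h : MartinAxiomCard #X) :
    MartinFor X := by
  intro R D hR hc hD
  let _ : Preorder X := { le := R, le_refl := hR.1, le_trans := hR.2 }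
  have hccc : IsCCC X := by
    intro A hA
    by_contra hunc
    obtain ⟨e⟩ : Nonempty (Om1 ↪ A) := by
      rw [← Cardinal.le_def, Cardinal.mk_ord_toType]
      rw [← Cardinal.succ_aleph0, Order.succ_le_iff]
      rw [← not_le, Cardinal.le_aleph0_iff_set_countable]
      exact hunc
    obtain ⟨a, b, hab, _, _, z, h1, h2⟩ := hc (fun _ => True) (fun a => (e a).1)
      (fun a => (exists_gt_om1 a).imp fun b hb => ⟨hb, trivial⟩)
    exact hA _ (e a).2 _ (e b).2 (fun h => hab (e.injective (Subtype.ext h))) ⟨z, h1, h2⟩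
  obtain ⟨G, hG1, hG2, hG3, hG4⟩ := h X hccc (Set.range fun i => {x | D i x})
    Cardinal.mk_range_le (by
      rintro _ ⟨i, rfl⟩ p
      obtain ⟨y, hy, hyp⟩ := hD i p
      exact ⟨y, hy, hyp⟩)
  refine ⟨fun x => x ∈ G, ⟨hG1, fun x y hx hxy => hG2 x hx y hxy, ?_⟩, ?_⟩
  · intro x y hx hy
    obtain ⟨r, hr, h1, h2⟩ := hG3 x hx y hy
    exact ⟨r, hr, h1, h2⟩
  · intro i
    obtain ⟨x, hx1, hx2⟩ := hG4 _ ⟨i, rfl⟩
    exact ⟨x, hx1, hx2⟩

/-- `MartinFor X` is Martin's axiom for `#X` dense sets. -/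
theorem martinFor_iff {X : Type} [Infinite X] : MartinFor X ↔ MartinAxiomCard #X :=
  ⟨martinAxiomCard_of_martinFor, martinFor_of_martinAxiomCard⟩

theorem martinFor_om1_iff : MartinFor Om1 ↔ MartinAxiomAleph1 := by
  rw [martinFor_iff, martinAxiomAleph1_iff, Cardinal.mk_ord_toType]

end Pool.Agent.W684.FM
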