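import Pool.Agent.Helper669.Forcing

/-!
# Martin's axiom, and the sentence of the forcing language which expresses it

The sentence `MartinHolds P X` of the forcing language is the literal translation of the
proposition `MartinFor X`: quantifiers over relations and sets become quantifiers over names.
-/

set_option autoImplicit false

namespace Pool.Agent.W684.FM

open Cardinal Pool.Agent.Helper669.Forcing

/-- The well-ordered set `ω₁` of the countable ordinals. -/
abbrev Om1 : Type := (ℵ₁ : Cardinal.{0}).ord.ToType

section Ambient

variable {X : Type}

/-- `R x y` (read: `x ≤ y`) is a preorder. -/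
def IsPre (R : X → X → Prop) : Prop :=
  (∀ x, R x x) ∧ ∀ x y z, R x y → R y z → R x z

/-- `x` and `y` have a common lower bound. -/
def Compat (R : X → X → Prop) (x y : X) : Prop := ∃ z, R z x ∧ R z y

/-- `Z` is an uncountable (that is, unbounded) subset of `ω₁`. -/
def Unb (Z : Om1 → Prop) : Prop := ∀ a, ∃ b, a < b ∧ Z b

/-- The countable chain condition: in every family of elements indexed by an uncountable subset
of `ω₁` there are two compatible members with different indices. -/
def CCC (R : X → X → Prop) : Prop :=
  ∀ (Z : Om1 → Prop) (f : Om1 → X), Unb Z →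
    ∃ a b, a ≠ b ∧ Z a ∧ Z b ∧ Compat R (f a) (f b)

/-- `D` is a dense subset. -/
def IsDenseIn (R : X → X → Prop) (D : X → Prop) : Prop := ∀ x, ∃ y, D y ∧ R y x

/-- `F` is a filter. -/
def IsFilterIn (R : X → X → Prop) (F : X → Prop) : Prop :=
  (∃ x, F x) ∧ (∀ x y, F x → R x y → F y) ∧ ∀ x y, F x → F y → ∃ z, F z ∧ R z x ∧ R z y

/-- Martin's axiom for preorders with underlying set `X` and families of dense sets indexed by
`X`. -/
def MartinFor (X : Type) : Prop :=
  ∀ R D : X → X → Prop, IsPre R → CCC R → (∀ i, IsDenseIn R (D i)) →
    ∃ F : X → Prop, IsFilterIn R F ∧ ∀ i, ∃ x, F x ∧ D i x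

end Ambient

section Names

variable {P : Type} [Preorder P] {X : Type}

/-- Forcing version of `IsPre`. -/
def IsPreN (R : X → X → Set P) : Set P :=
  fand (fall fun x => meets (R x x))
    (fall fun x => fall fun y => fall fun z =>
      fimp (fand (meets (R x y)) (meets (R y z))) (meets (R x z)))

/-- Forcing version of `Compat`. -/
def CompatN (R : X → X → Set P) (x y : X) : Set P :=
  fex fun z => fand (meets (R z x)) (meets (R z y))

/-- Forcing version of `Unb`. -/
def UnbN (Z : Om1 → Set P) : Set P :=
  fall fun a => fex fun b => fand (fground (a < b)) (meets (Z b))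

/-- Forcing version of `CCC`; functions from `ω₁` to `X` are given by names of their graphs. -/
def CCCN (R : X → X → Set P) : Set P :=
  fall fun Z : Om1 → Set P => fall fun f : Om1 → X → Set P =>
    fimp (fand (UnbN Z) (IsFun f)) (fex fun a => fex fun b =>
      fand (fground (a ≠ b)) (fand (meets (Z a)) (fand (meets (Z b))
        (fex fun x => fex fun y =>
          fand (meets (f a x)) (fand (meets (f b y)) (CompatN R x y))))))

/-- Forcing version of `IsDenseIn`. -/
def IsDenseN (R : X → X → Set P) (D : X → Set P) : Set P :=
  fall fun x => fex fun y => fand (meets (D y)) (meets (R y x))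

/-- Forcing version of `IsFilterIn`. -/
def IsFilterN (R : X → X → Set P) (F : X → Set P) : Set P :=
  fand (fex fun x => meets (F x))
    (fand (fall fun x => fall fun y => fimp (fand (meets (F x)) (meets (R x y))) (meets (F y)))
      (fall fun x => fall fun y => fimp (fand (meets (F x)) (meets (F y)))
        (fex fun z => fand (meets (F z)) (fand (meets (R z x)) (meets (R z y))))))

/-- The sentence `MartinFor X` of the forcing language. -/
def MartinHolds (P : Type) [Preorder P] (X : Type) : Set P :=
  fall fun R : X → X → Set P => fall fun D : X → X → Set P =>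
    fimp (fand (IsPreN R) (fand (CCCN R) (fall fun i => IsDenseN R (D i))))
      (fex fun F : X → Set P => fand (IsFilterN R F)
        (fall fun i => fex fun x => fand (meets (F x)) (meets (D i x))))

/-- In the extension there is no function from the natural numbers onto the ground model `ω₁`;
so the ground model `ω₁` is still the first uncountable cardinal. -/
def OmegaOnePreserved (P : Type) [Preorder P] : Set P :=
  fnot (fex fun R : ℕ → Om1 → Set P => fand (IsFun R) (IsOnto R))

end Names

end Pool.Agent.W684.FM
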