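import Pool.Agent.W684.FM.Main

/-!
# Martin's axiom can be forced: the iteration
-/

set_option autoImplicit false

namespace Pool.Agent.W684.FM

open Classical Cardinal Pool.Agent.Helper669.Forcing

variable {X W : Type} [LinearOrder W] [WellFoundedLT W]

variable (X W) in
/-- the poset of the iteration -/
def PP : Type := {p : Cond X W // Valid Sall p}

instance : Preorder (PP X W) where
  le p q := q.1 ⊆ p.1
  le_refl p := Finset.Subset.refl _
  le_trans p q r h1 h2 := Finset.Subset.trans h2 h1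

theorem PP.le_def {p q : PP X W} : p ≤ q ↔ q.1 ⊆ p.1 := Iff.rfl

theorem pccc : PCCC (PP X W) := by
  intro A hA
  have h1 : (Subtype.val '' A).Countable := by
    apply CCCs_Sall
    · rintro _ ⟨p, _, rfl⟩
      exact p.2
    · rintro _ ⟨p, hp, rfl⟩ _ ⟨q, hq, rfl⟩ hne ⟨r, hr, h1, h2⟩
      exact hA p hp q hq (fun h => hne (by rw [h])) ⟨⟨r, hr⟩, h1, h2⟩
  exact Set.countable_of_injective_of_countable_image Subtype.val_injective.injOn h1

/-- restriction to the coordinates before stage `α` -/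
noncomputable def rlt (α : W) (p : PP X W) : PP X W :=
  ⟨restr (Slt α) p.1, (valid_restr (fun _ => proper_Sall) (initial_Slt α) p.2).mono
    (Slt_sub_Sall α)⟩

/-- restriction to the coordinates up to stage `α` -/
noncomputable def rle (α : W) (p : PP X W) : PP X W :=
  ⟨restr (Sle α) p.1, (valid_restr (fun _ => proper_Sall) (initial_Sle α) p.2).mono
    (Sle_sub_Sall α)⟩

/-- all conditions in `N` only have coordinates of stages before `α` -/
def Below (α : W) (N : Set (PP X W)) : Prop := ∀ s ∈ N, ∀ a ∈ s.1, a.1.st < α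

theorem Below.memSlt {α : W} {N : Set (PP X W)} (h : Below α N) {s : PP X W} (hs : s ∈ N)
    {a : Code X W × X} (ha : a ∈ s.1) : a.1 ∈ Slt α :=
  mem_Slt.2 ⟨h s hs a ha, mem_Sall.1 (s.2 a ha).1⟩

/-- names referring to the stages before `α` only are decided by the restrictions -/
theorem meets_rlt {α : W} {N : Set (PP X W)} (hN : Below α N) {p : PP X W} (hp : p ∈ meets N) :
    rlt α p ∈ meets N := by
  intro q hq
  have hq' : restr (Slt α) p.1 ⊆ q.1 := hq
  have hv : Valid Sall (restr (Slt α) q.1 ∪ p.1) :=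
    amalg_one (Slt_sub_Sall α) p.2
      (valid_restr (fun _ => proper_Sall) (initial_Slt α) q.2)
      (subset_restr hq' fun a ha => (mem_restr.1 ha).2)
  obtain ⟨r, hr, s, hs, hrs⟩ := hp ⟨_, hv⟩ (PP.le_def.2 Finset.subset_union_right)
  have hr' : restr (Slt α) q.1 ∪ p.1 ⊆ r.1 := hr
  have hrs' : s.1 ⊆ r.1 := hrs
  have hv2 : Valid Sall (restr (Slt α) r.1 ∪ q.1) := by
    refine amalg_one (Slt_sub_Sall α) q.2
      (valid_restr (fun _ => proper_Sall) (initial_Slt α) r.2) ?_
    refine subset_restr (Finset.Subset.trans Finset.subset_union_left hr') ?_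
    exact fun a ha => (mem_restr.1 ha).2
  refine ⟨⟨_, hv2⟩, PP.le_def.2 Finset.subset_union_right, s, hs, ?_⟩
  rw [PP.le_def]
  exact Finset.Subset.trans (subset_restr hrs' fun a ha => hN.memSlt hs ha)
    Finset.subset_union_left

/-- every family of at most `#X` stages has an upper bound -/
def Bdd (X W : Type) [LinearOrder W] : Prop := ∀ L : Set W, #L ≤ #X → ∃ α, ∀ β ∈ L, β < α

theorem exists_below [Infinite X] (hW : Bdd X W) {ι : Type} (hι : #ι ≤ #X)
    (N : ι → Set (PP X W)) (hN : ∀ i, (N i).Countable) : ∃ α, ∀ β, α ≤ β → ∀ i, Below β (N i) := by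
  have h1 : #(⋃ i, ⋃ s ∈ N i, (fun a : Code X W × X => a.1.st) '' (s.1 : Set (Code X W × X))) ≤
      #X := by
    refine (Cardinal.mk_iUnion_le _).trans ?_
    calc #ι * _ ≤ #X * ℵ₀ := by
          apply mul_le_mul' hι
          apply ciSup_le'
          intro i
          rw [Cardinal.le_aleph0_iff_set_countable]
          exact (hN i).biUnion fun s _ => (s.1.countable_toSet).image _
      _ ≤ #X := (Cardinal.mul_eq_left (Cardinal.aleph0_le_mk X) (Cardinal.aleph0_le_mk X)
          Cardinal.aleph0_ne_zero).le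
  obtain ⟨α, hα⟩ := hW _ h1
  refine ⟨α, fun β hβ i s hs a ha => (hα _ ?_).trans_le hβ⟩
  rw [Set.mem_iUnion]
  refine ⟨i, ?_⟩
  rw [Set.mem_iUnion₂]
  exact ⟨s, hs, a, ha, rfl⟩

section Step

/-- The data at the stage where the name `R` of a preorder is handled. -/
structure Data (α : W) (q0 : PP X W) (R : X → X → Set (PP X W)) (A : Finset X → Set (PP X W))
    (c : Code X W) : Prop where
  hpre : q0 ∈ IsPreN R
  hccc : q0 ∈ CCCN R
  hR : ∀ x y, Below α (R x y)
  hA : ∀ F, Below α (A F)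
  hAlb : ∀ F, ∀ a ∈ A F, a ≤ q0 ∧ ∃ z, ∀ x ∈ F, a ∈ meets (R z x)
  hAd : ∀ F, ∀ p ≤ q0, (∃ z, ∀ x ∈ F, p ∈ meets (R z x)) → ∃ a ∈ A F, ∃ r, r ≤ p ∧ r ≤ a
  hst : c.st = α
  hnm : ∀ F s, s ∈ c.nm F ↔ ∃ a ∈ A F, s = a.1

variable {α : W} {q0 : PP X W} {R : X → X → Set (PP X W)} {A : Finset X → Set (PP X W)}
    {c : Code X W}

theorem Data.proper (h : Data α q0 R A c) : Proper c := by
  intro F s hs a ha
  obtain ⟨t, ht, rfl⟩ := (h.hnm F s).1 hs
  rw [h.hst]
  exact h.hA F t ht a ha

theorem Data.notMem (h : Data α q0 R A c) {F : Finset X} {a : PP X W} (ha : a ∈ A F) (x : X) :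
    (c, x) ∉ a.1 := fun hx => by
  have := h.hA F a ha _ hx
  rw [h.hst] at this
  exact lt_irrefl _ this

theorem Data.notMem_Slt (h : Data α q0 R A c) : c ∉ Slt α := fun hx => by
  have := (mem_Slt.1 hx).1
  rw [h.hst] at this
  exact lt_irrefl _ this

/-- the chain condition for one more coordinate -/
theorem Data.CCCs (h : Data α q0 R A c) : CCCs (Sle α ∪ {c}) := by
  by_cases hc : c ∈ (Sle α : Set (Code X W))
  · have : (Sle α ∪ {c} : Set (Code X W)) = Sle α := by
      rw [Set.union_eq_left, Set.singleton_subset_iff]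
      exact hc
    rw [this]
    exact CCCs_Sle α
  intro B hB hanti
  have hS : ∀ d ∈ (Sle α ∪ {c} : Set (Code X W)), Proper d := by
    rintro d (hd | hd)
    · exact proper_Sall (Sle_sub_Sall α hd)
    · rw [Set.mem_singleton_iff.1 hd]
      exact h.proper
  have hinit : Initial (Sle α) (Sle α ∪ {c} : Set (Code X W)) := by
    refine ⟨Set.subset_union_left, ?_⟩
    rintro d hd d' (hd' | hd') hlt
    · exact hd'
    · exfalso
      rw [Set.mem_singleton_iff.1 hd', h.hst] at hlt
      exact absurd (mem_Sle.1 hd).1 (not_le.2 hlt)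
  -- the elements without coordinate `c`
  have h0 : {p ∈ B | ∀ x, (c, x) ∉ p}.Countable := by
    have hv : ∀ p ∈ {p ∈ B | ∀ x, (c, x) ∉ p}, Valid (Sle α) p := by
      rintro p ⟨hp, hpc⟩
      refine (hB p hp).of_mem fun a ha => ?_
      rcases (hB p hp a ha).1 with h1 | h1
      · exact h1
      · exact absurd ha (by
          have := hpc a.2
          rw [← Set.mem_singleton_iff.1 h1] at this
          exact this)
    apply CCCs_Sle α _ hv
    rintro p hp q hq hne ⟨r, hr, h1, h2⟩
    exact hanti p hp.1 q hq.1 hne ⟨r, hr.mono Set.subset_union_left, h1, h2⟩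
  -- the elements with coordinate `c`
  suffices h1 : {p ∈ B | ∃ x, (c, x) ∈ p}.Countable by
    refine (h0.union h1).mono fun p hp => ?_
    by_cases h2 : ∃ x, (c, x) ∈ p
    · exact Or.inr ⟨hp, h2⟩
    · push Not at h2
      exact Or.inl ⟨hp, h2⟩
  by_contra hunc
  have : Nonempty X := by
    by_contra hne
    apply hunc
    convert Set.countable_empty
    rw [Set.eq_empty_iff_forall_notMem]
    rintro p ⟨_, x, _⟩
    exact hne ⟨x⟩
  let p' : Cond X W → PP X W := fun p =>
    if hp : Valid Sall (restr (Sle α) p) then ⟨restr (Sle α) p, hp⟩ else q0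
  have hp' : ∀ p ∈ {p ∈ B | ∃ x, (c, x) ∈ p}, (p' p).1 = restr (Sle α) p := by
    rintro p ⟨hp, _⟩
    have hv : Valid Sall (restr (Sle α) p) :=
      (valid_restr hS hinit (hB p hp)).mono (Sle_sub_Sall α)
    simp only [p', dif_pos hv]
  have hz : ∀ p ∈ {p ∈ B | ∃ x, (c, x) ∈ p},
      p' p ≤ q0 ∧ ∃ z, ∀ x ∈ fib p c, p' p ∈ meets (R z x) := by
    rintro p ⟨hp, y, hy⟩
    obtain ⟨_, s, hs, hsp⟩ := hB p hp _ hy
    obtain ⟨a, ha, rfl⟩ := (h.hnm _ s).1 hs
    have hle : p' p ≤ a := by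
      rw [PP.le_def, hp' p ⟨hp, y, hy⟩]
      exact subset_restr hsp fun b hb => Or.inl ((h.hA _).memSlt ha hb)
    obtain ⟨h1, z, h2⟩ := h.hAlb _ a ha
    exact ⟨hle.trans h1, z, fun x hx => down_meets _ _ (h2 x hx) _ hle⟩
  choose! hle z hz using hz
  obtain ⟨p1, hp1, p2, hp2, hne, u, hu1, hu2, w, hw1, hw2⟩ :=
    two_step pccc h.hccc {p ∈ B | ∃ x, (c, x) ∈ p} hunc p' z hle
  have huq : u ≤ q0 := hu1.trans (hle p1 hp1)
  have hupre : u ∈ IsPreN R := down_IsPreN R _ h.hpre _ huq
  have hlb : ∀ x ∈ fib p1 c ∪ fib p2 c, u ∈ meets (R w x) := by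
    intro x hx
    rcases Finset.mem_union.1 hx with h1 | h1
    · exact IsPreN.trans hupre hw1 (down_meets _ _ (hz p1 hp1 x h1) _ hu1)
    · exact IsPreN.trans hupre hw2 (down_meets _ _ (hz p2 hp2 x h1) _ hu2)
  obtain ⟨a, ha, u2, hu2u, hu2a⟩ := h.hAd _ u huq ⟨w, hlb⟩
  have hres : Valid (Sle α) (restr (Sle α) u2.1) :=
    valid_restr (fun _ => proper_Sall) (initial_Sle α) u2.2
  let G : Finset X := fib p1 c ∪ fib p2 c
  let t : Cond X W := restr (Sle α) u2.1 ∪ G.image fun x => (c, x)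
  have hmem : ∀ b, b ∈ t ↔ b ∈ restr (Sle α) u2.1 ∨ (b.1 = c ∧ b.2 ∈ G) := by
    rintro ⟨d, x⟩
    simp only [t, Finset.mem_union, Finset.mem_image, Prod.mk.injEq]
    constructor
    · rintro (h1 | ⟨y, hy, rfl, rfl⟩)
      · exact Or.inl h1
      · exact Or.inr ⟨rfl, hy⟩
    · rintro (h1 | ⟨rfl, h1⟩)
      · exact Or.inl h1
      · exact Or.inr ⟨x, h1, rfl, rfl⟩
  have hnc : ∀ x, (c, x) ∉ restr (Sle α) u2.1 := fun x hx => hc (mem_restr.1 hx).2
  have ht : Valid (Sle α ∪ {c}) t := by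
    intro b hb
    rcases (hmem b).1 hb with h1 | ⟨h1, h2⟩
    · obtain ⟨h3, s, hs, hst⟩ := hres b h1
      refine ⟨Or.inl h3, s, ?_, hst.trans Finset.subset_union_left⟩
      have h4 : fib t b.1 = fib (restr (Sle α) u2.1) b.1 := fib_congr fun x => by
        rw [hmem]
        constructor
        · rintro (h5 | ⟨h5, _⟩)
          · exact h5
          · simp only at h5
            rw [h5] at h3
            exact absurd h3 hc
        · exact Or.inl
      rw [h4]
      exact hs
    · refine ⟨Or.inr h1, a.1, ?_, ?_⟩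
      · have h4 : fib t b.1 = G := by
          ext x
          rw [mem_fib, hmem, h1]
          constructor
          · rintro (h5 | ⟨_, h5⟩)
            · exact absurd h5 (hnc x)
            · exact h5
          · exact fun h5 => Or.inr ⟨rfl, h5⟩
        rw [h4, h1, h.hnm]
        exact ⟨a, ha, rfl⟩
      · refine Finset.Subset.trans ?_ Finset.subset_union_left
        exact subset_restr hu2a fun b hb => Or.inl ((h.hA _).memSlt ha hb)
  have hsub : ∀ p ∈ {p ∈ B | ∃ x, (c, x) ∈ p}, u ≤ p' p → fib p c ⊆ G → p ⊆ t := by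
    intro p hp hup hG b hb
    rw [hmem]
    rcases (hB p hp.1 b hb).1 with h1 | h1
    · left
      rw [PP.le_def, hp' p hp] at hup
      exact mem_restr.2 ⟨hu2u (hup (mem_restr.2 ⟨hb, h1⟩)), h1⟩
    · right
      have h2 : b.1 = c := h1
      refine ⟨h2, hG ?_⟩
      rw [mem_fib, ← h2]
      exact hb
  exact hanti p1 hp1.1 p2 hp2.1 hne ⟨t, ht, hsub p1 hp1 hu1 Finset.subset_union_left,
    hsub p2 hp2 hu2 Finset.subset_union_right⟩

theorem Data.mem_V (h : Data α q0 R A c) : c ∈ V α := mem_V_of h.hst h.proper h.CCCs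

theorem Data.mem_Sall (h : Data α q0 R A c) : c ∈ (Sall : Set (Code X W)) :=
  FM.mem_Sall.2 (by rw [h.hst]; exact h.mem_V)

/-- a condition extends to one which puts into the filter an element of a given dense set below
all elements already put into it -/
theorem Data.ext [Nonempty X] (h : Data α q0 R A c) {D : X → Set (PP X W)}
    (hD : q0 ∈ IsDenseN R D) (hDb : ∀ x, Below α (D x)) {q : PP X W} (hq : q ≤ q0) :
    ∃ r ≤ q, ∃ d, (c, d) ∈ r.1 ∧ r ∈ meets (D d) ∧ ∀ x, (c, x) ∈ q.1 → r ∈ meets (R d x) := by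
  have hz : ∃ z, ∀ x ∈ fib q.1 c, q ∈ meets (R z x) := by
    rcases (fib q.1 c).eq_empty_or_nonempty with h1 | ⟨y, hy⟩
    · rw [h1]
      exact ⟨Classical.arbitrary X, by simp⟩
    · rw [mem_fib] at hy
      obtain ⟨_, s, hs, hsq⟩ := q.2 _ hy
      obtain ⟨a, ha, rfl⟩ := (h.hnm _ s).1 hs
      obtain ⟨_, z, hz⟩ := h.hAlb _ a ha
      exact ⟨z, fun x hx => down_meets _ _ (hz x hx) _ hsq⟩
  obtain ⟨z, hz⟩ := hz
  obtain ⟨u, hu, d, hud, hur⟩ := mem_fex.1 (hD z) q hq
  have huq : u ≤ q0 := hu.trans hq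
  have hupre : u ∈ IsPreN R := down_IsPreN R _ h.hpre _ huq
  have hdx : ∀ x ∈ insert d (fib q.1 c), u ∈ meets (R d x) := by
    intro x hx
    rcases Finset.mem_insert.1 hx with rfl | hx
    · exact IsPreN.refl hupre _
    · exact IsPreN.trans hupre hur (down_meets _ _ (hz x hx) _ hu)
  obtain ⟨a, ha, u2, hu2u, hu2a⟩ := h.hAd _ u huq ⟨d, hdx⟩
  have hres : Valid (Slt α) (restr (Slt α) u2.1) :=
    valid_restr (fun _ => proper_Sall) (initial_Slt α) u2.2
  have hqu2 : q.1 ⊆ u2.1 := (hu2u.trans hu : u2 ≤ q)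
  have hv : Valid Sall (restr (Slt α) u2.1 ∪ q.1) :=
    amalg_one (Slt_sub_Sall α) q.2 hres (restr_mono hqu2)
  let t : Cond X W := insert (c, d) (restr (Slt α) u2.1 ∪ q.1)
  have hnc : ∀ x, (c, x) ∉ restr (Slt α) u2.1 := fun x hx => h.notMem_Slt (mem_restr.1 hx).2
  have haub : a.1 ⊆ restr (Slt α) u2.1 := subset_restr hu2a fun b hb => (h.hA _).memSlt ha hb
  have ht : Valid Sall t := by
    intro b hb
    by_cases hbc : b.1 = c
    · refine ⟨by rw [hbc]; exact h.mem_Sall, a.1, ?_, ?_⟩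
      · have h4 : fib t b.1 = insert d (fib q.1 c) := by
          ext x
          rw [mem_fib, Finset.mem_insert, Finset.mem_insert, Finset.mem_union, mem_fib, hbc]
          constructor
          · rintro (h5 | h5 | h5)
            · exact Or.inl (Prod.mk.inj h5).2
            · exact absurd h5 (hnc x)
            · exact Or.inr h5
          · rintro (rfl | h5)
            · exact Or.inl rfl
            · exact Or.inr (Or.inr h5)
        rw [h4, hbc, h.hnm]
        exact ⟨a, ha, rfl⟩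
      · exact haub.trans (Finset.subset_union_left.trans (Finset.subset_insert _ _))
    · have hb' : b ∈ restr (Slt α) u2.1 ∪ q.1 := by
        rcases Finset.mem_insert.1 hb with h1 | h1
        · exact absurd (by rw [h1]) hbc
        · exact h1
      obtain ⟨h1, s, hs, hst⟩ := hv b hb'
      refine ⟨h1, s, ?_, hst.trans (Finset.subset_insert _ _)⟩
      have h4 : fib t b.1 = fib (restr (Slt α) u2.1 ∪ q.1) b.1 := fib_congr fun x => by
        rw [Finset.mem_insert]
        constructor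
        · rintro (h5 | h5)
          · exact absurd (Prod.mk.inj h5).1 hbc
          · exact h5
        · exact Or.inr
      rw [h4]
      exact hs
  let r : PP X W := ⟨t, ht⟩
  have hrle : r ≤ rlt α u2 := by
    rw [PP.le_def]
    exact Finset.Subset.trans Finset.subset_union_left (Finset.subset_insert _ _)
  refine ⟨r, ?_, d, Finset.mem_insert_self _ _, ?_, ?_⟩
  · rw [PP.le_def]
    exact Finset.Subset.trans Finset.subset_union_right (Finset.subset_insert _ _)
  · exact down_meets _ _ (meets_rlt (hDb d) (down_meets _ _ hud _ hu2u)) _ hrle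
  · intro x hx
    have h1 : u2 ∈ meets (R d x) :=
      down_meets _ _ (hdx x (Finset.mem_insert_of_mem (mem_fib.2 hx))) _ hu2u
    exact down_meets _ _ (meets_rlt (h.hR d x) h1) _ hrle

/-- the generic filter -/
def genF (c : Code X W) (R : X → X → Set (PP X W)) : X → Set (PP X W) :=
  fun y => {p | ∃ x, (c, x) ∈ p.1 ∧ p ∈ meets (R x y)}

theorem down_genF (c : Code X W) (R : X → X → Set (PP X W)) (y : X) : Down (genF c R y) := by
  rintro p ⟨x, hx, hp⟩ q hq
  exact ⟨x, hq hx, down_meets _ _ hp _ hq⟩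

theorem Data.filter [Nonempty X] (h : Data α q0 R A c) {D : X → X → Set (PP X W)}
    (hD : ∀ i, q0 ∈ IsDenseN R (D i)) (hDb : ∀ i x, Below α (D i x)) :
    q0 ∈ fand (IsFilterN R (genF c R))
        (fall fun i => fex fun x => fand (meets (genF c R x)) (meets (D i x))) := by
  have i0 : X := Classical.arbitrary X
  have hmeet : q0 ∈ fall fun i => fex fun x => fand (meets (genF c R x)) (meets (D i x)) := by
    intro i
    rw [mem_fex]
    intro q hq
    obtain ⟨r, hr, d, hd, hrD, _⟩ := h.ext (hD i) (hDb i) hq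
    have hrpre : r ∈ IsPreN R := down_IsPreN R _ h.hpre _ (hr.trans hq)
    exact ⟨r, hr, d, meets_of_mem ⟨d, hd, IsPreN.refl hrpre d⟩, hrD⟩
  refine ⟨⟨?_, ?_, ?_⟩, hmeet⟩
  · rw [mem_fex]
    intro q hq
    obtain ⟨r, hr, x, hx, _⟩ := mem_fex.1 (hmeet i0) q hq
    exact ⟨r, hr, x, hx⟩
  · intro x y
    rw [mem_fimp]
    rintro q hq ⟨h1, h2⟩
    obtain ⟨r, hr, x', hx', hrx⟩ := exists_of_meets (down_genF c R x) h1
    have hrpre : r ∈ IsPreN R := down_IsPreN R _ h.hpre _ (hr.trans hq)
    exact ⟨r, hr, meets_of_mem ⟨x', hx', IsPreN.trans hrpre hrx (down_meets _ _ h2 _ hr)⟩⟩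
  · intro x y
    rw [mem_fimp]
    rintro q hq ⟨h1, h2⟩
    obtain ⟨r, hr, x', hx', hrx⟩ := exists_of_meets (down_genF c R x) h1
    obtain ⟨s, hs, y', hy', hsy⟩ :=
      exists_of_meets (down_genF c R y) (down_meets _ _ h2 _ hr)
    have hsq : s ≤ q0 := hs.trans (hr.trans hq)
    obtain ⟨t, ht, d, hd, _, htd⟩ := h.ext (hD i0) (hDb i0) hsq
    have htpre : t ∈ IsPreN R := down_IsPreN R _ h.hpre _ (ht.trans hsq)
    refine ⟨t, ht.trans (hs.trans hr), ?_⟩
    refine mem_fex_of_mem d (down_fand (down_meets _) (down_fand (down_meets _) (down_meets _)))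
      ⟨meets_of_mem ⟨d, hd, IsPreN.refl htpre d⟩, ?_, ?_⟩
    · exact IsPreN.trans htpre (htd x' (hs hx')) (down_meets _ _ hrx _ (ht.trans hs))
    · exact IsPreN.trans htpre (htd y' hy') (down_meets _ _ hsy _ ht)

end Step

/-- The iteration forces Martin's axiom. -/
theorem martinHolds [Infinite X] (hW : Bdd X W) (p : PP X W) : p ∈ MartinHolds (PP X W) X := by
  intro R D
  rw [mem_fimp]
  rintro q0 _ ⟨hpre, hccc, hD⟩
  refine ⟨q0, le_rfl, ?_⟩
  -- countable names
  choose R' hR'c hR' using fun x y => exists_countable_name pccc (R x y)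
  choose D' hD'c hD' using fun i x => exists_countable_name pccc (D i x)
  have hRe : ∀ x y, meets (R x y) = meets (R' x y) := fun x y => (hR' x y).symm
  have hDe : ∀ i x, meets (D i x) = meets (D' i x) := fun i x => (hD' i x).symm
  have hpre' : q0 ∈ IsPreN R' := by
    simpa only [IsPreN, hRe] using hpre
  have hccc' : q0 ∈ CCCN R' := by
    simpa only [CCCN, CompatN, hRe] using hccc
  have hD2 : ∀ i, q0 ∈ IsDenseN R' (D' i) := by
    intro i
    have := hD i
    simpa only [IsDenseN, hRe, hDe] using this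
  choose A hAc hAlb hAd using fun F : Finset X => exists_predense (P := PP X W) pccc
    {r | r ≤ q0 ∧ ∃ z, ∀ x ∈ F, r ∈ meets (R' z x)} (by
      rintro r ⟨h1, z, h2⟩ s hs
      exact ⟨hs.trans h1, z, fun x hx => down_meets _ _ (h2 x hx) _ hs⟩)
  obtain ⟨α1, h1⟩ := exists_below hW (ι := X × X) (by simp) (fun i => R' i.1 i.2)
    fun i => hR'c i.1 i.2
  obtain ⟨α2, h2⟩ := exists_below hW (ι := X × X) (by simp) (fun i => D' i.1 i.2)
    fun i => hD'c i.1 i.2
  obtain ⟨α3, h3⟩ := exists_below hW (ι := Finset X) (by simp) A hAc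
  let α := max α1 (max α2 α3)
  have hα1 : α1 ≤ α := le_max_left _ _
  have hα2 : α2 ≤ α := (le_max_left _ _).trans (le_max_right _ _)
  have hα3 : α3 ≤ α := (le_max_right _ _).trans (le_max_right _ _)
  obtain ⟨c, hcst, hcnm⟩ := Code.exists_code α (fun F => Subtype.val '' A F)
    fun F => (hAc F).image _
  have hdata : Data α q0 R' A c := by
    refine ⟨hpre', hccc', fun x y => h1 α hα1 (x, y), fun F => h3 α hα3 F,
      fun F a ha => hAlb F ha, ?_, hcst, ?_⟩
    · intro F p hp hz
      exact hAd F p ⟨hp, hz⟩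
    · intro F s
      rw [hcnm]
      constructor
      · rintro ⟨a, ha, rfl⟩
        exact ⟨a, ha, rfl⟩
      · rintro ⟨a, ha, rfl⟩
        exact ⟨a, ha, rfl⟩
  have hfil := hdata.filter hD2 (fun i x => h2 α hα2 (i, x))
  refine mem_fex_of_mem (genF c R') (down_fand (down_IsFilterN _ _)
    (down_fall fun _ => down_fex _)) ?_
  simpa only [IsFilterN, hRe, hDe] using hfil

/-- the well-ordered set of the stages -/
theorem bdd_succ (X : Type) [Infinite X] : Bdd X (Order.succ #X).ord.ToType := by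
  intro L hL
  by_contra hcon
  push Not at hcon
  have h1 : (Set.univ : Set (Order.succ #X).ord.ToType) ⊆ ⋃ β : L, insert β.1 (Set.Iio β.1) := by
    intro α _
    obtain ⟨β, hβ, h2⟩ := hcon α
    refine Set.mem_iUnion.2 ⟨⟨β, hβ⟩, ?_⟩
    rcases h2.lt_or_eq with h3 | h3
    · exact Or.inr h3
    · exact Or.inl h3
  have h2 : #(⋃ β : L, insert β.1 (Set.Iio β.1)) ≤ #X := by
    refine (Cardinal.mk_iUnion_le _).trans ?_
    calc #L * _ ≤ #X * #X := by
          apply mul_le_mul' hL
          apply ciSup_le'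
          intro i
          refine (Cardinal.mk_insert_le).trans ?_
          have h3 : #(Set.Iio i.1) ≤ #X := by
            have := Cardinal.mk_Iio_toType_ord_lt i.1
            exact Order.lt_succ_iff.1 this
          calc #(Set.Iio i.1) + 1 ≤ #X + #X :=
                add_le_add h3 ((Cardinal.one_le_aleph0).trans (Cardinal.aleph0_le_mk X))
            _ = #X := Cardinal.add_eq_self (Cardinal.aleph0_le_mk X)
      _ = #X := Cardinal.mul_eq_self (Cardinal.aleph0_le_mk X)
  have h3 := (Cardinal.mk_le_mk_of_subset h1).trans h2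
  rw [Cardinal.mk_univ, Cardinal.mk_ord_toType] at h3
  exact absurd h3 (not_le.2 (Order.lt_succ _))

end Pool.Agent.W684.FM
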