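import Mathlib

/-!
# Codes for the coordinates of a finite support iteration

A coordinate of the iteration carries its stage `α` and a name for a family of finite subsets of
`X` (the finite centred subsets of a preorder). The name assigns to each finite `F ⊆ X` a
countable set of conditions; conditions are finite sets of pairs (coordinate, element of `X`).
-/

set_option autoImplicit false

namespace Pool.Agent.W684.FM

/-- codes of coordinates -/
inductive Code (X W : Type) : Type
  | mk (st : W) (on : Finset X → ℕ → Prop) (len : Finset X → ℕ → ℕ)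
      (sub : (F : Finset X) → (n : ℕ) → Fin (len F n) → Code X W)
      (val : (F : Finset X) → (n : ℕ) → Fin (len F n) → X) : Code X W

variable {X W : Type}

/-- conditions (before validity is imposed) -/
abbrev Cond (X W : Type) : Type := Finset (Code X W × X)

namespace Code

/-- the stage -/
def st : Code X W → W
  | mk st _ _ _ _ => st

open Classical in
/-- the name -/
noncomputable def nm : Code X W → Finset X → Set (Cond X W)
  | mk _ on len sub val, F => {s | ∃ n, on F n ∧
      s = Finset.univ.image fun i : Fin (len F n) => (sub F n i, val F n i)}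

theorem exists_code (α : W) (N : Finset X → Set (Cond X W)) (hN : ∀ F, (N F).Countable) :
    ∃ c : Code X W, c.st = α ∧ c.nm = N := by
  classical
  have h1 : ∀ F, ∃ g : ℕ → Option (Cond X W), ∀ s, s ∈ N F ↔ ∃ n, g n = some s := by
    intro F
    rcases (N F).eq_empty_or_nonempty with h | h
    · exact ⟨fun _ => none, fun s => by simp [h]⟩
    · obtain ⟨g, hg⟩ := (hN F).exists_eq_range h
      refine ⟨fun n => some (g n), fun s => ?_⟩
      rw [hg]
      simp
  choose g hg using h1
  let e : (F : Finset X) → (n : ℕ) → Cond X W := fun F n => (g F n).getD ∅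
  refine ⟨mk α (fun F n => g F n ≠ none) (fun F n => (e F n).card)
    (fun F n i => ((e F n).equivFin.symm i).1.1) (fun F n i => ((e F n).equivFin.symm i).1.2),
    rfl, ?_⟩
  funext F
  ext s
  rw [hg]
  have himg : ∀ n, (Finset.univ.image fun i : Fin (e F n).card =>
      (((e F n).equivFin.symm i).1.1, ((e F n).equivFin.symm i).1.2)) = e F n := by
    intro n
    ext a
    simp only [Finset.mem_image, Finset.mem_univ, true_and]
    constructor
    · rintro ⟨i, rfl⟩
      exact ((e F n).equivFin.symm i).2
    · intro ha
      exact ⟨(e F n).equivFin ⟨a, ha⟩, by simp⟩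
  show (∃ n, g F n ≠ none ∧ s = Finset.univ.image fun i : Fin (e F n).card =>
      (((e F n).equivFin.symm i).1.1, ((e F n).equivFin.symm i).1.2)) ↔ _
  constructor
  · rintro ⟨n, h1, h2⟩
    rw [himg] at h2
    obtain ⟨t, ht⟩ := Option.ne_none_iff_exists'.1 h1
    refine ⟨n, ?_⟩
    rw [h2]
    simp [e, ht]
  · rintro ⟨n, hn⟩
    refine ⟨n, by rw [hn]; simp, ?_⟩
    rw [himg]
    simp [e, hn]

end Code

end Pool.Agent.W684.FM
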