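import Pool.Agent.W684.FM.Code
import Pool.Agent.Helper126.Fact

/-!
# Valid conditions, amalgamation, and the countable chain condition
-/

set_option autoImplicit false

namespace Pool.Agent.W684.FM

open Classical

variable {X W : Type}

/-- the finite set attached by a condition to a coordinate -/
noncomputable def fib (p : Cond X W) (c : Code X W) : Finset X :=
  (p.filter fun a => a.1 = c).image Prod.snd

theorem mem_fib {p : Cond X W} {c : Code X W} {x : X} : x ∈ fib p c ↔ (c, x) ∈ p := by
  simp only [fib, Finset.mem_image, Finset.mem_filter]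
  constructor
  · rintro ⟨⟨c', x'⟩, ⟨h1, h2⟩, h3⟩
    simp only at h2 h3
    subst h2 h3
    exact h1
  · intro h
    exact ⟨(c, x), ⟨h, rfl⟩, rfl⟩

theorem fib_congr {p q : Cond X W} {c : Code X W} (h : ∀ x, (c, x) ∈ p ↔ (c, x) ∈ q) :
    fib p c = fib q c := by
  ext x
  rw [mem_fib, mem_fib, h]

/-- valid conditions: all coordinates are in `S`, and the finite set attached to a coordinate is
in the named family, as witnessed by a subset of the condition -/
def Valid (S : Set (Code X W)) (p : Cond X W) : Prop :=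
  ∀ a ∈ p, a.1 ∈ S ∧ ∃ s ∈ a.1.nm (fib p a.1), s ⊆ p

theorem Valid.mono {S T : Set (Code X W)} (h : S ⊆ T) {p : Cond X W} (hp : Valid S p) :
    Valid T p := fun a ha => ⟨h (hp a ha).1, (hp a ha).2⟩

theorem valid_empty (S : Set (Code X W)) : Valid S ∅ := fun a ha => by simp at ha

theorem Valid.of_mem {S T : Set (Code X W)} {p : Cond X W} (hp : Valid S p)
    (h : ∀ a ∈ p, a.1 ∈ T) : Valid T p := fun a ha => ⟨h a ha, (hp a ha).2⟩

/-- restriction of a condition -/
noncomputable def restr (T : Set (Code X W)) (p : Cond X W) : Cond X W := p.filter fun a => a.1 ∈ T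

theorem mem_restr {T : Set (Code X W)} {p : Cond X W} {a : Code X W × X} :
    a ∈ restr T p ↔ a ∈ p ∧ a.1 ∈ T := by simp [restr]

theorem restr_subset (T : Set (Code X W)) (p : Cond X W) : restr T p ⊆ p := Finset.filter_subset _ _

theorem restr_mono {T : Set (Code X W)} {p q : Cond X W} (h : p ⊆ q) : restr T p ⊆ restr T q :=
  fun a ha => by
    rw [mem_restr] at ha ⊢
    exact ⟨h ha.1, ha.2⟩

theorem subset_restr {T : Set (Code X W)} {p q : Cond X W} (h : p ⊆ q) (hp : ∀ a ∈ p, a.1 ∈ T) :
    p ⊆ restr T q := fun a ha => mem_restr.2 ⟨h ha, hp a ha⟩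

section

variable [LinearOrder W]

/-- the name of the coordinate refers to earlier stages only -/
def Proper (c : Code X W) : Prop := ∀ F, ∀ s ∈ c.nm F, ∀ a ∈ s, a.1.st < c.st

/-- initial parts of sets of coordinates -/
def Initial (T S : Set (Code X W)) : Prop :=
  T ⊆ S ∧ ∀ c ∈ T, ∀ c' ∈ S, c'.st < c.st → c' ∈ T

theorem valid_restr {T S : Set (Code X W)} (hS : ∀ c ∈ S, Proper c) (hT : Initial T S)
    {p : Cond X W} (hp : Valid S p) : Valid T (restr T p) := by
  intro a ha
  rw [mem_restr] at ha
  refine ⟨ha.2, ?_⟩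
  obtain ⟨h1, s, hs, hsp⟩ := hp a ha.1
  have h2 : fib (restr T p) a.1 = fib p a.1 := fib_congr fun x => by
    rw [mem_restr]
    exact ⟨fun h => h.1, fun h => ⟨h, ha.2⟩⟩
  refine ⟨s, by rw [h2]; exact hs, fun b hb => ?_⟩
  rw [mem_restr]
  exact ⟨hsp hb, hT.2 _ ha.2 _ (hp b (hsp hb)).1 (hS _ h1 _ s hs b hb)⟩

/-- amalgamation of two conditions over an initial part -/
theorem amalg {T S : Set (Code X W)} (hT : T ⊆ S) {p p' q : Cond X W} (hp : Valid S p)
    (hp' : Valid S p') (hq : Valid T q) (h : restr T p ⊆ q) (h' : restr T p' ⊆ q)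
    (hd : ∀ a ∈ p, ∀ b ∈ p', a.1 = b.1 → a.1 ∈ T) : Valid S (q ∪ p ∪ p') := by
  intro a ha
  by_cases haT : a.1 ∈ T
  · have haq : a ∈ q := by
      rcases Finset.mem_union.1 ha with h1 | h1
      · rcases Finset.mem_union.1 h1 with h2 | h2
        · exact h2
        · exact h (mem_restr.2 ⟨h2, haT⟩)
      · exact h' (mem_restr.2 ⟨h1, haT⟩)
    obtain ⟨h1, s, hs, hsq⟩ := hq a haq
    refine ⟨hT h1, s, ?_, hsq.trans (Finset.subset_union_left.trans Finset.subset_union_left)⟩
    have h2 : fib (q ∪ p ∪ p') a.1 = fib q a.1 := fib_congr fun x => by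
      rw [Finset.mem_union, Finset.mem_union]
      constructor
      · rintro ((h3 | h3) | h3)
        · exact h3
        · exact h (mem_restr.2 ⟨h3, haT⟩)
        · exact h' (mem_restr.2 ⟨h3, haT⟩)
      · exact fun h3 => Or.inl (Or.inl h3)
    rw [h2]
    exact hs
  · have hnq : ∀ x, (a.1, x) ∉ q := fun x hx => haT (hq _ hx).1
    by_cases hap : ∃ x, (a.1, x) ∈ p
    · have hnp' : ∀ x, (a.1, x) ∉ p' := by
        intro x hx
        obtain ⟨y, hy⟩ := hap
        exact haT (hd (a.1, y) hy _ hx rfl)
      obtain ⟨y, hy⟩ := hap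
      obtain ⟨h1, s, hs, hsp⟩ := hp _ hy
      refine ⟨h1, s, ?_, hsp.trans (Finset.subset_union_right.trans Finset.subset_union_left)⟩
      have h2 : fib (q ∪ p ∪ p') a.1 = fib p a.1 := fib_congr fun x => by
        rw [Finset.mem_union, Finset.mem_union]
        constructor
        · rintro ((h3 | h3) | h3)
          · exact absurd h3 (hnq x)
          · exact h3
          · exact absurd h3 (hnp' x)
        · exact fun h3 => Or.inl (Or.inr h3)
      rw [h2]
      exact hs
    · push Not at hap
      have hap' : a ∈ p' := by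
        rcases Finset.mem_union.1 ha with h1 | h1
        · rcases Finset.mem_union.1 h1 with h2 | h2
          · exact absurd h2 (hnq a.2)
          · exact absurd h2 (hap a.2)
        · exact h1
      obtain ⟨h1, s, hs, hsp⟩ := hp' _ hap'
      refine ⟨h1, s, ?_, hsp.trans Finset.subset_union_right⟩
      have h2 : fib (q ∪ p ∪ p') a.1 = fib p' a.1 := fib_congr fun x => by
        rw [Finset.mem_union, Finset.mem_union]
        constructor
        · rintro ((h3 | h3) | h3)
          · exact absurd h3 (hnq x)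
          · exact absurd h3 (hap x)
          · exact h3
        · exact fun h3 => Or.inr h3
      rw [h2]
      exact hs

/-- amalgamation of one condition -/
theorem amalg_one {T S : Set (Code X W)} (hT : T ⊆ S) {p q : Cond X W} (hp : Valid S p)
    (hq : Valid T q) (h : restr T p ⊆ q) : Valid S (q ∪ p) := by
  have := amalg hT hp (valid_empty S) hq h (by simp [restr]) (by simp)
  simpa using this

/-- the countable chain condition of the poset of the valid conditions -/
def CCCs (S : Set (Code X W)) : Prop :=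
  ∀ A : Set (Cond X W), (∀ p ∈ A, Valid S p) →
    (∀ p ∈ A, ∀ q ∈ A, p ≠ q → ¬ ∃ r, Valid S r ∧ p ⊆ r ∧ q ⊆ r) → A.Countable

theorem CCCs_of_parts {S : Set (Code X W)} (hS : ∀ c ∈ S, Proper c)
    (hT : ∀ r : Finset (Code X W), (∀ c ∈ r, c ∈ S) →
      ∃ T, Initial T S ∧ (∀ c ∈ r, c ∈ T) ∧ CCCs T) : CCCs S := by
  intro A hA hanti
  by_contra hunc
  obtain ⟨A', r, hA', hunc', hr, hd⟩ := Helper126.delta_system
    (fun p : Cond X W => p.image Prod.fst) A hunc
  obtain ⟨p0, hp0⟩ : A'.Nonempty := by
    rw [Set.nonempty_iff_ne_empty]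
    rintro rfl
    exact hunc' Set.countable_empty
  have hrS : ∀ c ∈ r, c ∈ S := by
    intro c hc
    obtain ⟨a, ha, rfl⟩ := Finset.mem_image.1 (hr p0 hp0 hc)
    exact (hA p0 (hA' hp0) a ha).1
  obtain ⟨T, hTS, hrT, hccc⟩ := hT r hrS
  -- no two different conditions in `A'` have compatible restrictions
  have key : ∀ p ∈ A', ∀ p' ∈ A', p ≠ p' →
      ¬ ∃ q, Valid T q ∧ restr T p ⊆ q ∧ restr T p' ⊆ q := by
    rintro p hp p' hp' hne ⟨q, hq, h1, h2⟩
    apply hanti p (hA' hp) p' (hA' hp') hne
    refine ⟨q ∪ p ∪ p', ?_, Finset.subset_union_right.trans Finset.subset_union_left,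
      Finset.subset_union_right⟩
    refine amalg hTS.1 (hA p (hA' hp)) (hA p' (hA' hp')) hq h1 h2 ?_
    intro a ha b hb hab
    apply hrT
    apply hd p hp p' hp' hne a.1 (Finset.mem_image_of_mem _ ha)
    rw [hab]
    exact Finset.mem_image_of_mem _ hb
  have hinj : Set.InjOn (restr T) A' := by
    intro p hp p' hp' heq
    by_contra hne
    exact key p hp p' hp' hne ⟨restr T p, valid_restr hS hTS (hA p (hA' hp)),
      Finset.Subset.refl _, heq ▸ Finset.Subset.refl _⟩
  have hcount : (restr T '' A').Countable := by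
    apply hccc
    · rintro _ ⟨p, hp, rfl⟩
      exact valid_restr hS hTS (hA p (hA' hp))
    · rintro _ ⟨p, hp, rfl⟩ _ ⟨p', hp', rfl⟩ hne
      exact key p hp p' hp' (fun h => hne (by rw [h]))
  exact hunc' (Set.countable_of_injective_of_countable_image hinj hcount)

omit [LinearOrder W] in
theorem CCCs_empty : CCCs (∅ : Set (Code X W)) := by
  intro A hA _
  have : A ⊆ {∅} := by
    intro p hp
    rw [Set.mem_singleton_iff, Finset.eq_empty_iff_forall_notMem]
    intro a ha
    exact (hA p hp a ha).1
  exact (Set.countable_singleton _).mono this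

/-! ### Maximal extensions at one stage -/

/-- the candidates for the set of the coordinates at stage `α` -/
def Cand (α : W) (S₀ : Set (Code X W)) : Set (Set (Code X W)) :=
  {M | (∀ c ∈ M, c.st = α ∧ Proper c) ∧ CCCs (S₀ ∪ M)}

theorem exists_max (α : W) (S₀ : Set (Code X W)) (h₀ : ∀ c ∈ S₀, c.st < α ∧ Proper c)
    (hc : CCCs S₀) : ∃ M, Maximal (fun M => M ∈ Cand α S₀) M := by
  apply zorn_subset
  intro 𝒞 h𝒞 hchain
  rcases 𝒞.eq_empty_or_nonempty with he | hne
  · subst he
    refine ⟨∅, ⟨by simp, by simpa using hc⟩, by simp⟩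
  · refine ⟨⋃₀ 𝒞, ⟨?_, ?_⟩, fun s hs => Set.subset_sUnion_of_mem hs⟩
    · rintro c ⟨M, hM, hcM⟩
      exact (h𝒞 hM).1 c hcM
    · apply CCCs_of_parts
      · rintro c (h | ⟨M, hM, hcM⟩)
        · exact (h₀ c h).2
        · exact ((h𝒞 hM).1 c hcM).2
      · intro r hr
        have : ∃ M ∈ 𝒞, ∀ c ∈ r, c ∈ S₀ ∪ M := by
          induction r using Finset.induction_on with
          | empty =>
            obtain ⟨M, hM⟩ := hne
            exact ⟨M, hM, by simp⟩
          | insert c r _ ih =>
            obtain ⟨M, hM, h1⟩ := ih fun d hd => hr d (Finset.mem_insert_of_mem hd)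
            rcases hr c (Finset.mem_insert_self _ _) with h2 | ⟨M', hM', h2⟩
            · refine ⟨M, hM, fun d hd => ?_⟩
              rcases Finset.mem_insert.1 hd with h3 | h3
              · rw [h3]
                exact Or.inl h2
              · exact h1 d h3
            · rcases hchain.total hM hM' with h4 | h4
              · refine ⟨M', hM', fun d hd => ?_⟩
                rcases Finset.mem_insert.1 hd with h3 | h3
                · rw [h3]
                  exact Or.inr h2
                · exact (h1 d h3).imp id fun h => h4 h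
              · refine ⟨M, hM, fun d hd => ?_⟩
                rcases Finset.mem_insert.1 hd with h3 | h3
                · rw [h3]
                  exact Or.inr (h4 h2)
                · exact h1 d h3
        obtain ⟨M, hM, h1⟩ := this
        refine ⟨S₀ ∪ M, ⟨Set.union_subset_union_right _ (Set.subset_sUnion_of_mem hM), ?_⟩,
          h1, (h𝒞 hM).2⟩
        rintro c hcS c' (h2 | ⟨M', hM', h2⟩) hlt
        · exact Or.inl h2
        · exfalso
          have h3 : c'.st = α := ((h𝒞 hM').1 c' h2).1
          have h4 : c.st ≤ α := by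
            rcases hcS with h | h
            · exact (h₀ c h).1.le
            · exact ((h𝒞 hM).1 c h).1.le
          rw [h3] at hlt
          exact absurd h4 (not_le.2 hlt)

end

end Pool.Agent.W684.FM
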